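import Pool.Agent.Helper903.ES.Main

set_option autoImplicit false

namespace Pool.Agent.Results.MP_56e41f_co.LargeProbability

open Finset

/-- the set `F` of edges contains a copy of `T` -/
def HasCopy {m n : ℕ} (T : SimpleGraph (Fin m)) (F : Finset (Sym2 (Fin n))) : Prop :=
  ∃ f : Fin m → Fin n, Function.Injective f ∧ ∀ a b, T.Adj a b → s(f a, f b) ∈ F

open Classical in
/-- the probability that `G_p` contains a copy of `T`, where `E` is the edge set of `G`: every
edge of `E` is retained independently with probability `p` -/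
noncomputable def probCopy {m n : ℕ} (E : Finset (Sym2 (Fin n))) (T : SimpleGraph (Fin m))
    (p : ℝ) : ℝ :=
  ∑ F ∈ E.powerset, if HasCopy T F then p ^ F.card * (1 - p) ^ (E.card - F.card) else 0

theorem var_range (N : ℕ) (p : ℝ) :
    ∑ k ∈ range (N + 1), ((N.choose k : ℝ) * p ^ k * (1 - p) ^ (N - k)) * ((k : ℝ) - p * N) ^ 2 =
      N * p * (1 - p) := by
  have h := congrArg (Polynomial.eval p) (bernsteinPolynomial.variance ℝ N)
  rw [Polynomial.eval_finsetSum] at h
  simp only [bernsteinPolynomial, Polynomial.eval_mul, Polynomial.eval_pow, Polynomial.eval_sub,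
    Polynomial.eval_X, Polynomial.eval_natCast, Polynomial.eval_one,
    nsmul_eq_mul] at h
  rw [← h]
  apply Finset.sum_congr rfl
  intro k _
  ring

theorem var_powerset {α : Type*} (E : Finset α) (p : ℝ) :
    ∑ F ∈ E.powerset, (p ^ F.card * (1 - p) ^ (E.card - F.card)) *
      ((F.card : ℝ) - p * E.card) ^ 2 = E.card * p * (1 - p) := by
  rw [Finset.sum_powerset_apply_card
    (fun k => (p ^ k * (1 - p) ^ (E.card - k)) * ((k : ℝ) - p * E.card) ^ 2), ← var_range]
  apply Finset.sum_congr rfl
  intro k _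
  rw [nsmul_eq_mul]
  ring

/-- Erdős–Sós for a set of edges. -/
theorem copy_of_many {m n : ℕ} (hm : 1 ≤ m) (T : SimpleGraph (Fin m))
    (hT : T.IsTree) (G : SimpleGraph (Fin n)) [DecidableRel G.Adj]
    (F : Finset (Sym2 (Fin n))) (hF : F ⊆ G.edgeFinset) (h : m * n < 2 * F.card) :
    HasCopy T F := by
  classical
  let H : SimpleGraph (Fin n) := SimpleGraph.fromEdgeSet (F : Set (Sym2 (Fin n)))
  have hH : ∀ inst : Fintype H.edgeSet, (@SimpleGraph.edgeFinset _ H inst) = F := by
    intro inst
    ext e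
    rw [SimpleGraph.mem_edgeFinset, SimpleGraph.edgeSet_fromEdgeSet]
    constructor
    · rintro ⟨h1, -⟩
      exact_mod_cast h1
    · intro he
      refine ⟨by exact_mod_cast he, ?_⟩
      have := hF he
      rw [SimpleGraph.mem_edgeFinset] at this
      exact G.not_isDiag_of_mem_edgeSet this
  obtain ⟨f, hf⟩ := ES903.erdos_sos H (m - 1) (by
    rw [hH, Fintype.card_fin]
    have : (m - 1 - 1) * n ≤ m * n := Nat.mul_le_mul_right _ (by omega)
    omega) T hT (by rw [Fintype.card_fin]; omega)
  refine ⟨f, f.injective, fun a b hab => ?_⟩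
  have h1 := hf a b hab
  rw [← SimpleGraph.mem_edgeSet, ← SimpleGraph.mem_edgeFinset, hH] at h1
  exact h1

/-- If `T` has at most `(p - ε) d` vertices, `d` being the average degree of `G`, then `G_p`
contains `T` with probability at least `1 - 1 / (2 ε² n)`. -/
theorem result (m n : ℕ) (hn : 1 ≤ n) (G : SimpleGraph (Fin n)) [DecidableRel G.Adj]
    (T : SimpleGraph (Fin m)) (hT : T.IsTree) (p ε : ℝ) (hp0 : 0 ≤ p) (hp1 : p ≤ 1) (hε : 0 < ε)
    (hm : (m : ℝ) ≤ (p - ε) * (2 * (G.edgeFinset.card : ℝ) / n)) :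
    1 - 1 / (2 * ε ^ 2 * n) ≤ probCopy G.edgeFinset T p := by
  classical
  set N : ℕ := G.edgeFinset.card with hN
  have hn' : (0 : ℝ) < n := by exact_mod_cast hn
  have hm1 : 1 ≤ m := by
    rcases Nat.eq_zero_or_pos m with h0 | h0
    · subst h0
      exact (hT.1.nonempty.some).elim0
    · exact h0
  have hm1' : (1 : ℝ) ≤ m := by exact_mod_cast hm1
  have hm2 : (m : ℝ) * n ≤ (p - ε) * (2 * N) := by
    have h1 := mul_le_mul_of_nonneg_right hm hn'.le
    have h2 : (p - ε) * (2 * (N : ℝ) / n) * n = (p - ε) * (2 * N) := by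
      field_simp
    linarith
  have hN0 : (0 : ℝ) ≤ N := Nat.cast_nonneg _
  have hNn : (n : ℝ) ≤ 2 * N := by
    have h1 : (n : ℝ) ≤ m * n := by nlinarith
    have h2 : (p - ε) * (2 * (N : ℝ)) ≤ 1 * (2 * N) := by
      apply mul_le_mul_of_nonneg_right _ (by positivity)
      linarith
    linarith
  have hNpos : (0 : ℝ) < N := by linarith
  set w : Finset (Sym2 (Fin n)) → ℝ := fun F => p ^ F.card * (1 - p) ^ (N - F.card) with hw
  have hw0 : ∀ F, 0 ≤ w F := fun F => by
    simp only [hw]
    have : (0 : ℝ) ≤ 1 - p := by linarith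
    positivity
  have hsum : ∑ F ∈ G.edgeFinset.powerset, w F = 1 := by
    simp only [hw, hN]
    rw [Finset.sum_pow_mul_eq_add_pow]
    simp
  have hvar := var_powerset G.edgeFinset p
  rw [← hN] at hvar
  have hbad : ∑ F ∈ G.edgeFinset.powerset, (if HasCopy T F then 0 else w F) ≤
      1 / (2 * ε ^ 2 * n) := by
    have h1 : ∑ F ∈ G.edgeFinset.powerset, (if HasCopy T F then 0 else w F) ≤
        ∑ F ∈ G.edgeFinset.powerset, w F * ((F.card : ℝ) - p * N) ^ 2 / (ε ^ 2 * N ^ 2) := by
      apply Finset.sum_le_sum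
      intro F hF
      split_ifs with hc
      · have := hw0 F
        positivity
      · have h2 : (2 * F.card : ℕ) ≤ m * n := by
          by_contra hcon
          exact hc (copy_of_many hm1 T hT G F (Finset.mem_powerset.1 hF) (by omega))
        have h3 : 2 * (F.card : ℝ) ≤ m * n := by exact_mod_cast h2
        have h4 : ε * N ≤ p * N - F.card := by nlinarith
        have h5 : (ε * N) ^ 2 ≤ ((F.card : ℝ) - p * N) ^ 2 := by
          have h6 : (0 : ℝ) ≤ ε * N := by positivity
          nlinarith
        rw [le_div_iff₀ (by positivity)]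
        have := hw0 F
        nlinarith
    refine h1.trans ?_
    rw [← Finset.sum_div, hvar, div_le_div_iff₀ (by positivity) (by positivity)]
    have h7 : p * (1 - p) ≤ 1 / 4 := by nlinarith [sq_nonneg (p - 1 / 2)]
    have h8 : (N : ℝ) * p * (1 - p) ≤ N * (1 / 4) := by
      rw [mul_assoc]
      exact mul_le_mul_of_nonneg_left h7 hN0
    have h9 : (N : ℝ) * p * (1 - p) * (2 * ε ^ 2 * n) ≤ N * (1 / 4) * (2 * ε ^ 2 * (2 * N)) := by
      apply mul_le_mul h8 _ (by positivity) (by positivity)
      apply mul_le_mul_of_nonneg_left hNn (by positivity)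
    nlinarith
  have hsplit : probCopy G.edgeFinset T p +
      ∑ F ∈ G.edgeFinset.powerset, (if HasCopy T F then 0 else w F) = 1 := by
    rw [← hsum, probCopy, ← Finset.sum_add_distrib]
    apply Finset.sum_congr rfl
    intro F _
    by_cases hc : HasCopy T F
    · simp only [hc, if_true, add_zero, hw, hN]
    · simp only [hc, if_false, zero_add]
  linarith

end Pool.Agent.Results.MP_56e41f_co.LargeProbability
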